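import Mathlib

/-!
# Polynomial maps are injective at small scales where a minor is not small

Quantitative local injectivity of a polynomial map with bounded coefficients on a box.
-/

set_option autoImplicit false

namespace Pool.POLY

open Finset Real MvPolynomial

/-- The minor of the Jacobian matrix of `P` in the variables `I`. -/
noncomputable def jac {n r : ℕ} (P : Fin r → MvPolynomial (Fin n) ℝ) (I : Fin r → Fin n) :
    MvPolynomial (Fin n) ℝ :=
  (Matrix.of fun j i => pderiv (I i) (P j)).det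

theorem eval_jac {n r : ℕ} (P : Fin r → MvPolynomial (Fin n) ℝ) (I : Fin r → Fin n)
    (x : Fin n → ℝ) :
    eval x (jac P I) = (Matrix.of fun j i => eval x (pderiv (I i) (P j))).det := by
  unfold jac
  rw [RingHom.map_det]
  rfl

theorem totalDegree_pderiv {n : ℕ} (p : MvPolynomial (Fin n) ℝ) (i : Fin n) {K : ℕ}
    (h : p.totalDegree ≤ K) : (pderiv i p).totalDegree ≤ K := by
  classical
  refine le_trans ?_ h
  rw [p.as_sum, map_sum]
  refine (totalDegree_finsetSum _ _).trans ?_
  rw [← p.as_sum]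
  refine Finset.sup_le fun s hs => ?_
  rw [pderiv_monomial]
  refine (totalDegree_monomial_le _ _).trans ?_
  refine le_trans ?_ (le_totalDegree hs)
  have h1 : (s - Finsupp.single i 1) ≤ s := tsub_le_self
  exact Finsupp.sum_le_sum_index h1 (fun j _ => monotone_id) (fun j _ => rfl)

theorem degree_jac {n r : ℕ} (P : Fin r → MvPolynomial (Fin n) ℝ) (I : Fin r → Fin n) {K : ℕ}
    (h : ∀ j, (P j).totalDegree ≤ K) (i : Fin n) : (jac P I).degreeOf i ≤ r * K := by
  classical
  refine (degreeOf_le_totalDegree _ _).trans ?_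
  unfold jac
  rw [Matrix.det_apply]
  refine (totalDegree_finsetSum _ _).trans (Finset.sup_le fun σ _ => ?_)
  have h1 : (Equiv.Perm.sign σ • ∏ j, (Matrix.of fun j i => pderiv (I i) (P j)) (σ j) j).totalDegree
      ≤ (∏ j, (Matrix.of fun j i => pderiv (I i) (P j)) (σ j) j).totalDegree := by
    rcases Int.units_eq_one_or (Equiv.Perm.sign σ) with h2 | h2
    · rw [h2, one_smul]
    · rw [h2, Units.neg_smul, one_smul, totalDegree_neg]
  refine h1.trans ((totalDegree_finsetProd _ _).trans ?_)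
  calc ∑ j, ((Matrix.of fun j i => pderiv (I i) (P j)) (σ j) j).totalDegree
      ≤ ∑ _j : Fin r, K := Finset.sum_le_sum fun j _ => totalDegree_pderiv _ _ (h _)
    _ = r * K := by rw [Finset.sum_const, Finset.card_univ, Fintype.card_fin, smul_eq_mul]

/-- A bound on a box from the coefficients. -/
theorem abs_eval_le {n K : ℕ} (p : MvPolynomial (Fin n) ℝ) (hK : p.totalDegree ≤ K) {B a : ℝ}
    (hB : ∀ m, |coeff m p| ≤ B) (ha : 1 ≤ a) (x : Fin n → ℝ) (hx : ∀ i, |x i| ≤ a) :
    |eval x p| ≤ (K + 1) ^ n * (B * a ^ K) := by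
  classical
  have hB0 : 0 ≤ B := (abs_nonneg _).trans (hB 0)
  rw [eval_eq]
  refine (Finset.abs_sum_le_sum_abs _ _).trans ?_
  have h1 : ∀ m ∈ p.support, |coeff m p * ∏ i ∈ m.support, x i ^ m i| ≤ B * a ^ K := by
    intro m hm
    rw [abs_mul, Finset.abs_prod]
    refine mul_le_mul (hB m) ?_ (Finset.prod_nonneg fun i _ => abs_nonneg _) hB0
    calc ∏ i ∈ m.support, |x i ^ m i| ≤ ∏ i ∈ m.support, a ^ m i := by
          refine Finset.prod_le_prod (fun i _ => abs_nonneg _) fun i _ => ?_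
          rw [abs_pow]
          exact pow_le_pow_left₀ (abs_nonneg _) (hx i) _
      _ = a ^ (∑ i ∈ m.support, m i) := by rw [Finset.prod_pow_eq_pow_sum]
      _ ≤ a ^ K := pow_le_pow_right₀ ha ((le_totalDegree hm).trans hK)
  refine (Finset.sum_le_sum h1).trans ?_
  rw [Finset.sum_const, nsmul_eq_mul]
  have h2 : p.support.card ≤ (K + 1) ^ n := by
    have h3 : p.support.card ≤ (Fintype.piFinset fun _ : Fin n => Finset.range (K + 1)).card := by
      refine Finset.card_le_card_of_injOn (fun m => (m : Fin n → ℕ)) ?_ ?_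
      · intro m hm
        simp only [Finset.mem_coe, Fintype.mem_piFinset, Finset.mem_range]
        intro i
        have h4 := (le_totalDegree (Finset.mem_coe.1 hm)).trans hK
        have h5 : m i ≤ m.sum fun _ e => e := by
          by_cases h6 : i ∈ m.support
          · exact Finset.single_le_sum (f := fun j => m j) (fun _ _ => Nat.zero_le _) h6
          · rw [Finsupp.notMem_support_iff] at h6
            rw [h6]
            exact Nat.zero_le _
        omega
      · intro m _ m' _ h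
        exact DFunLike.coe_injective h
    refine h3.trans (le_of_eq ?_)
    rw [Fintype.card_piFinset]
    simp
  have h3 : (p.support.card : ℝ) ≤ (K + 1) ^ n := by exact_mod_cast h2
  exact mul_le_mul_of_nonneg_right h3 (by positivity)

theorem coeff_pderiv_le {n K : ℕ} (p : MvPolynomial (Fin n) ℝ) (hK : p.totalDegree ≤ K) {B : ℝ}
    (hB : ∀ m, |coeff m p| ≤ B) (i : Fin n) (m : Fin n →₀ ℕ) :
    |coeff m (pderiv i p)| ≤ (K + 1) * B := by
  classical
  have hB0 : 0 ≤ B := (abs_nonneg _).trans (hB 0)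
  rw [coeff_pderiv]
  by_cases hm : m + Finsupp.single i 1 ∈ p.support
  · have h1 := (le_totalDegree hm).trans hK
    have h2 : (m + Finsupp.single i 1 : Fin n →₀ ℕ) i ≤ K := by
      refine le_trans ?_ h1
      by_cases h6 : i ∈ (m + Finsupp.single i 1 : Fin n →₀ ℕ).support
      · exact Finset.single_le_sum (f := fun j => (m + Finsupp.single i 1 : Fin n →₀ ℕ) j)
          (fun _ _ => Nat.zero_le _) h6
      · rw [Finsupp.notMem_support_iff] at h6
        rw [h6]
        exact Nat.zero_le _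
    rw [Finsupp.add_apply, Finsupp.single_eq_same] at h2
    rw [abs_mul]
    have h3 : |((m i : ℝ) + 1)| ≤ K + 1 := by
      rw [abs_of_nonneg (by positivity)]
      have : ((m i : ℕ) : ℝ) + 1 ≤ K := by exact_mod_cast h2
      linarith
    calc |coeff (m + Finsupp.single i 1) p| * |((m i : ℝ) + 1)| ≤ B * (K + 1) :=
          mul_le_mul (hB _) h3 (abs_nonneg _) hB0
      _ = (K + 1) * B := by ring
  · rw [notMem_support_iff] at hm
    rw [hm, zero_mul, abs_zero]
    positivity

/-- The derivative of a polynomial along a segment. -/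
theorem hasDerivAt_seg {n : ℕ} (G : MvPolynomial (Fin n) ℝ) (y v : Fin n → ℝ) (t : ℝ) :
    HasDerivAt (fun t : ℝ => eval (fun i => y i + t * v i) G)
      (∑ i, v i * eval (fun i => y i + t * v i) (pderiv i G)) t := by
  classical
  induction G using MvPolynomial.induction_on with
  | C a =>
    simp only [eval_C, pderiv_C, map_zero, mul_zero, Finset.sum_const_zero]
    exact hasDerivAt_const t a
  | add p q hp hq =>
    simp only [map_add, mul_add, Finset.sum_add_distrib]
    exact hp.add hq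
  | mul_X p j hp =>
    have h1 : HasDerivAt (fun t : ℝ => y j + t * v j) (v j) t := by
      have := ((hasDerivAt_id t).mul_const (v j)).const_add (y j)
      simpa using this
    have h2 := hp.mul h1
    have e1 : (fun t : ℝ => eval (fun i => y i + t * v i) (p * X j)) =
        (fun t : ℝ => eval (fun i => y i + t * v i) p) * (fun t : ℝ => y j + t * v j) := by
      funext t
      simp
    rw [e1]
    refine h2.congr_deriv ?_
    symm
    have e2 : ∀ i, v i * eval (fun i => y i + t * v i) (pderiv i (p * X j)) =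
        v i * eval (fun i => y i + t * v i) (pderiv i p) *
          (y j + t * v j) + (if i = j then v i * eval (fun i => y i + t * v i) p else 0) := by
      intro i
      rw [Derivation.leibniz]
      by_cases hij : i = j
      · subst hij
        simp only [pderiv_X_self, smul_eq_mul, map_add, map_mul, eval_X, if_true, mul_one]
        ring
      · simp only [pderiv_X_of_ne (Ne.symm hij), smul_eq_mul, map_add, map_mul, eval_X,
          if_neg hij, mul_zero, map_zero]
        ring
    rw [Finset.sum_congr rfl (fun i _ => e2 i), Finset.sum_add_distrib, ← Finset.sum_mul]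
    simp only [Finset.sum_ite_eq', Finset.mem_univ, if_true]
    ring

/-- First order bound along a segment. -/
theorem seg_le {n K : ℕ} (p : MvPolynomial (Fin n) ℝ) (hK : p.totalDegree ≤ K) {B a V : ℝ}
    (hB : ∀ m, |coeff m p| ≤ B) (ha : 1 ≤ a) (x v : Fin n → ℝ) (hx : ∀ i, |x i| ≤ a)
    (hxv : ∀ i, |x i + v i| ≤ a) (hv : ∀ i, |v i| ≤ V) (t : ℝ) (ht : t ∈ Set.Icc (0 : ℝ) 1) :
    |eval (fun i => x i + t * v i) p - eval x p| ≤
      n * ((K + 1) ^ (n + 1) * (B * a ^ K)) * V := by
  have hmem : ∀ s ∈ Set.Icc (0 : ℝ) 1, ∀ i, |x i + s * v i| ≤ a := by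
    intro s hs i
    have e : x i + s * v i = (1 - s) * x i + s * (x i + v i) := by ring
    rw [e]
    refine (abs_add_le _ _).trans ?_
    rw [abs_mul, abs_mul, abs_of_nonneg (by linarith [hs.2] : 0 ≤ 1 - s), abs_of_nonneg hs.1]
    have h1 := mul_le_mul_of_nonneg_left (hx i) (by linarith [hs.2] : 0 ≤ 1 - s)
    have h2 := mul_le_mul_of_nonneg_left (hxv i) hs.1
    linarith
  have hbd : ∀ s ∈ Set.Icc (0 : ℝ) 1, ‖∑ i, v i * eval (fun i => x i + s * v i) (pderiv i p)‖ ≤
      n * ((K + 1) ^ (n + 1) * (B * a ^ K)) * V := by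
    intro s hs
    rw [Real.norm_eq_abs]
    refine (Finset.abs_sum_le_sum_abs _ _).trans ?_
    have h1 : ∀ i ∈ (univ : Finset (Fin n)), |v i * eval (fun i => x i + s * v i) (pderiv i p)| ≤
        V * ((K + 1) ^ (n + 1) * (B * a ^ K)) := by
      intro i _
      rw [abs_mul]
      refine mul_le_mul (hv i) ?_ (abs_nonneg _) ((abs_nonneg _).trans (hv i))
      refine (abs_eval_le _ (totalDegree_pderiv p i hK) (coeff_pderiv_le p hK hB i) ha _
        (hmem s hs)).trans (le_of_eq ?_)
      ring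
    refine (Finset.sum_le_sum h1).trans (le_of_eq ?_)
    rw [Finset.sum_const, Finset.card_univ, Fintype.card_fin, nsmul_eq_mul]
    ring
  have h3 := (convex_Icc (0 : ℝ) 1).norm_image_sub_le_of_norm_hasDerivWithin_le
    (f := fun t : ℝ => eval (fun i => x i + t * v i) p)
    (fun t _ => (hasDerivAt_seg p x v t).hasDerivWithinAt) hbd
    (x := 0) (y := t) (by simp) ht
  have e0 : (fun i => x i + (0 : ℝ) * v i) = x := by
    funext i
    ring
  simp only [e0, Real.norm_eq_abs, sub_zero] at h3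
  refine h3.trans ?_
  have hC : 0 ≤ n * ((K + 1 : ℝ) ^ (n + 1) * (B * a ^ K)) * V := by
    rcases Nat.eq_zero_or_pos n with hn | hn
    · subst hn
      simp
    · have hV : 0 ≤ V := (abs_nonneg _).trans (hv ⟨0, hn⟩)
      have hB0 : 0 ≤ B := (abs_nonneg _).trans (hB 0)
      positivity
  calc _ ≤ n * ((K + 1 : ℝ) ^ (n + 1) * (B * a ^ K)) * V * 1 :=
        mul_le_mul_of_nonneg_left (by rw [abs_of_nonneg ht.1]; exact ht.2) hC
    _ = _ := mul_one _

/-- Second order bound. -/
theorem taylor_le {n K : ℕ} (p : MvPolynomial (Fin n) ℝ) (hK : p.totalDegree ≤ K) {B a V : ℝ}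
    (hB : ∀ m, |coeff m p| ≤ B) (ha : 1 ≤ a) (x v : Fin n → ℝ) (hx : ∀ i, |x i| ≤ a)
    (hxv : ∀ i, |x i + v i| ≤ a) (hv : ∀ i, |v i| ≤ V) :
    |eval (fun i => x i + v i) p - eval x p - ∑ i, v i * eval x (pderiv i p)| ≤
      n ^ 2 * ((K + 1) ^ (n + 2) * (B * a ^ K)) * V ^ 2 := by
  have hder : ∀ t : ℝ, HasDerivAt (fun t : ℝ => eval (fun i => x i + t * v i) p -
      t * ∑ i, v i * eval x (pderiv i p))
      (∑ i, v i * (eval (fun i => x i + t * v i) (pderiv i p) - eval x (pderiv i p))) t := by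
    intro t
    have h1 := (hasDerivAt_seg p x v t).sub
      ((hasDerivAt_id t).mul_const (∑ i, v i * eval x (pderiv i p)))
    refine h1.congr_deriv ?_
    rw [one_mul, ← Finset.sum_sub_distrib]
    exact Finset.sum_congr rfl fun i _ => by ring
  have hbd : ∀ s ∈ Set.Icc (0 : ℝ) 1,
      ‖∑ i, v i * (eval (fun i => x i + s * v i) (pderiv i p) - eval x (pderiv i p))‖ ≤
      n ^ 2 * ((K + 1) ^ (n + 2) * (B * a ^ K)) * V ^ 2 := by
    intro s hs
    rw [Real.norm_eq_abs]
    refine (Finset.abs_sum_le_sum_abs _ _).trans ?_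
    have h1 : ∀ i ∈ (univ : Finset (Fin n)), |v i * (eval (fun i => x i + s * v i) (pderiv i p) -
        eval x (pderiv i p))| ≤ V * (n * ((K + 1) ^ (n + 1) * (((K + 1) * B) * a ^ K)) * V) := by
      intro i _
      rw [abs_mul]
      exact mul_le_mul (hv i) (seg_le _ (totalDegree_pderiv p i hK) (coeff_pderiv_le p hK hB i) ha
        x v hx hxv hv s hs) (abs_nonneg _) ((abs_nonneg _).trans (hv i))
    refine (Finset.sum_le_sum h1).trans (le_of_eq ?_)
    rw [Finset.sum_const, Finset.card_univ, Fintype.card_fin, nsmul_eq_mul]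
    ring
  have h3 := (convex_Icc (0 : ℝ) 1).norm_image_sub_le_of_norm_hasDerivWithin_le
    (fun t _ => (hder t).hasDerivWithinAt) hbd (x := 0) (y := 1) (by simp) (by simp)
  have e0 : (fun i => x i + (0 : ℝ) * v i) = x := by
    funext i
    ring
  have e1 : (fun i => x i + (1 : ℝ) * v i) = fun i => x i + v i := by
    funext i
    ring
  rw [e0, e1, Real.norm_eq_abs] at h3
  simp only [sub_zero, zero_mul, one_mul, norm_one, mul_one] at h3
  refine le_trans (le_of_eq ?_) h3
  congr 1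
  ring

/-- **Local injectivity.** -/
theorem loc_inj (n r K : ℕ) : ∃ C : ℝ, 1 ≤ C ∧ ∀ (P : Fin r → MvPolynomial (Fin n) ℝ)
    (I : Fin r → Fin n) (B a m η V : ℝ) (x x' : Fin n → ℝ), 1 ≤ B → 1 ≤ a → 0 ≤ η →
    (∀ j, (P j).totalDegree ≤ K) → (∀ j k, |coeff k (P j)| ≤ B) → (∀ i, |x i| ≤ a) →
    (∀ i, |x' i| ≤ a) → (∀ i, (∀ j, I j ≠ i) → x i = x' i) → 0 < m → m ≤ |eval x (jac P I)| →
    (∀ i, |x' i - x i| ≤ V) → C * (B * a ^ K) ^ (r + 1) * V ≤ m →
    (∀ j, |eval x' (P j) - eval x (P j)| ≤ η) →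
    ∀ i, |x' i - x i| ≤ C * (B * a ^ K) ^ (r + 1) * η / m := by
  classical
  obtain ⟨M₀, hM₀⟩ : ∃ M₀ : ℝ, M₀ = (K + 1) ^ (n + 2) := ⟨_, rfl⟩
  have hM₀1 : 1 ≤ M₀ := by
    rw [hM₀]
    exact one_le_pow₀ (by
      have : (0 : ℝ) ≤ K := Nat.cast_nonneg K
      linarith)
  obtain ⟨c₀, hc₀⟩ : ∃ c₀ : ℝ, c₀ = r * (Nat.factorial r * M₀ ^ r) := ⟨_, rfl⟩
  have hc₀0 : 0 ≤ c₀ := by
    rw [hc₀]
    positivity
  obtain ⟨C, hC⟩ : ∃ C : ℝ, C = 1 + 2 * c₀ * (1 + n ^ 2 * M₀) := ⟨_, rfl⟩
  have hC1 : 1 ≤ C := by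
    have : 0 ≤ 2 * c₀ * (1 + n ^ 2 * M₀) := by positivity
    linarith
  refine ⟨C, hC1, ?_⟩
  intro P I B a m η V x x' hB ha hη0 hdeg hcf hx hx' hoff hm hmin hV hsm hη
  obtain ⟨D, hD⟩ : ∃ D : ℝ, D = B * a ^ K := ⟨_, rfl⟩
  have haK : 1 ≤ a ^ K := one_le_pow₀ ha
  have hD1 : 1 ≤ D := by
    rw [hD]
    nlinarith
  rw [← hD] at hsm ⊢
  have hMD1 : 1 ≤ M₀ * D := by nlinarith
  rcases Nat.eq_zero_or_pos r with hr | hr
  · subst hr
    intro i
    have h1 := hoff i (fun j => j.elim0)
    rw [h1, sub_self, abs_zero]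
    positivity
  set A : Matrix (Fin r) (Fin r) ℝ := Matrix.of fun j i => eval x (pderiv (I i) (P j)) with hA
  have hdet : m ≤ |A.det| := by rw [hA, ← eval_jac]; exact hmin
  have hAe : ∀ j i, |A j i| ≤ M₀ * D := by
    intro j i
    have h1 := abs_eval_le (pderiv (I i) (P j)) (totalDegree_pderiv _ _ (hdeg j))
      (coeff_pderiv_le _ (hdeg j) (hcf j) (I i)) ha x hx
    refine h1.trans ?_
    have h2 : ((K : ℝ) + 1) ^ n * ((K + 1) * B * a ^ K) = (K + 1) ^ (n + 1) * D := by
      rw [hD]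
      ring
    rw [h2, hM₀]
    refine mul_le_mul_of_nonneg_right ?_ (by linarith)
    exact pow_le_pow_right₀ (by
      have : (0 : ℝ) ≤ K := Nat.cast_nonneg K
      linarith) (by omega)
  have hinj : Function.Injective I := by
    intro i i' hii
    by_contra hne
    have h1 : A.det = 0 := Matrix.det_zero_of_column_eq hne (fun j => by
      simp only [hA, Matrix.of_apply, hii])
    rw [h1, abs_zero] at hdet
    linarith
  set v : Fin n → ℝ := fun i => x' i - x i with hv
  set u : Fin r → ℝ := fun i => v (I i) with hu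
  obtain ⟨i₀, -, hi₀⟩ := Finset.exists_max_image (univ : Finset (Fin r)) (fun i => |u i|)
    ⟨⟨0, hr⟩, Finset.mem_univ _⟩
  have hvV : ∀ i, |v i| ≤ |u i₀| := by
    intro i
    by_cases h : ∃ j, I j = i
    · obtain ⟨j, rfl⟩ := h
      exact hi₀ j (Finset.mem_univ _)
    · push Not at h
      have h1 := hoff i h
      simp only [hv, h1, sub_self, abs_zero]
      exact abs_nonneg _
  have hxv : (fun i => x i + v i) = x' := by
    funext i
    simp only [hv]
    ring
  have hw : ∀ j, |(A.mulVec u) j| ≤ η + n ^ 2 * (M₀ * D) * |u i₀| ^ 2 := by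
    intro j
    have h1 := taylor_le (P j) (hdeg j) (hcf j) ha x v hx
      (fun i => by rw [show x i + v i = x' i from congrFun hxv i]; exact hx' i) hvV
    rw [hxv] at h1
    have h2 : (A.mulVec u) j = ∑ i, v i * eval x (pderiv i (P j)) := by
      have h3 : ∑ i, v i * eval x (pderiv i (P j)) =
          ∑ i ∈ univ.image I, v i * eval x (pderiv i (P j)) := by
        symm
        refine Finset.sum_subset (Finset.subset_univ _) fun i _ hi => ?_
        have h4 : ∀ j, I j ≠ i := by
          intro j hj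
          exact hi (Finset.mem_image.2 ⟨j, Finset.mem_univ _, hj⟩)
        have h5 := hoff i h4
        simp only [hv, h5, sub_self, zero_mul]
      rw [h3, Finset.sum_image (fun a _ b _ h => hinj h)]
      simp only [Matrix.mulVec, dotProduct, hA, Matrix.of_apply, hu]
      exact Finset.sum_congr rfl fun i _ => mul_comm _ _
    rw [h2]
    have h3 := hη j
    have e : ∑ i, v i * eval x (pderiv i (P j)) = (eval x' (P j) - eval x (P j)) -
        (eval x' (P j) - eval x (P j) - ∑ i, v i * eval x (pderiv i (P j))) := by ring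
    rw [e]
    refine (abs_sub _ _).trans ?_
    have h4 : (n : ℝ) ^ 2 * ((K + 1) ^ (n + 2) * (B * a ^ K)) * |u i₀| ^ 2 =
        n ^ 2 * (M₀ * D) * |u i₀| ^ 2 := by rw [hM₀, hD]
    rw [h4] at h1
    linarith
  have hadj : ∀ i j, |A.adjugate i j| ≤ Nat.factorial r * (M₀ * D) ^ r := by
    intro i j
    rw [Matrix.adjugate_apply]
    have h1 := Matrix.det_le (A := A.updateRow j (Pi.single i 1))
      (abv := (AbsoluteValue.abs : AbsoluteValue ℝ ℝ)) (x := M₀ * D) (fun a b => by
        rw [Matrix.updateRow_apply]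
        split_ifs with h
        · rw [Pi.single_apply]
          split_ifs
          · simpa using hMD1
          · simp only [map_zero]
            linarith
        · exact hAe a b)
    rw [Fintype.card_fin, nsmul_eq_mul] at h1
    exact h1
  have hcr : A.det * u i₀ = ∑ j, A.adjugate i₀ j * (A.mulVec u) j := by
    have h1 : (A.adjugate * A).mulVec u = (A.det • (1 : Matrix (Fin r) (Fin r) ℝ)).mulVec u := by
      rw [Matrix.adjugate_mul]
    rw [← Matrix.mulVec_mulVec, Matrix.smul_mulVec, Matrix.one_mulVec] at h1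
    have h2 := congrFun h1 i₀
    rw [Pi.smul_apply, smul_eq_mul] at h2
    rw [← h2]
    rfl
  have hmain : m * |u i₀| ≤ c₀ * D ^ r * (η + n ^ 2 * (M₀ * D) * |u i₀| ^ 2) := by
    have h1 : m * |u i₀| ≤ |A.det * u i₀| := by
      rw [abs_mul]
      exact mul_le_mul_of_nonneg_right hdet (abs_nonneg _)
    refine h1.trans ?_
    rw [hcr]
    refine (Finset.abs_sum_le_sum_abs _ _).trans ?_
    have h2 : ∀ j ∈ (univ : Finset (Fin r)), |A.adjugate i₀ j * (A.mulVec u) j| ≤
        (Nat.factorial r * (M₀ * D) ^ r) * (η + n ^ 2 * (M₀ * D) * |u i₀| ^ 2) := by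
      intro j _
      rw [abs_mul]
      exact mul_le_mul (hadj i₀ j) (hw j) (abs_nonneg _) (by positivity)
    refine (Finset.sum_le_sum h2).trans (le_of_eq ?_)
    rw [Finset.sum_const, Finset.card_univ, Fintype.card_fin, nsmul_eq_mul, hc₀, mul_pow]
    ring
  have hu0 : 0 ≤ |u i₀| := abs_nonneg _
  have hDr : D ^ r ≤ D ^ (r + 1) := pow_le_pow_right₀ hD1 (by omega)
  have hDr0 : 0 < D ^ r := by positivity
  have hUV : |u i₀| ≤ V := hV _
  have hhalf : c₀ * D ^ r * (n ^ 2 * (M₀ * D) * |u i₀| ^ 2) ≤ m / 2 * |u i₀| := by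
    have h1 : c₀ * D ^ r * (n ^ 2 * (M₀ * D) * |u i₀| ^ 2) =
        (c₀ * (n ^ 2 * M₀) * D ^ (r + 1) * |u i₀|) * |u i₀| := by ring
    rw [h1]
    refine mul_le_mul_of_nonneg_right ?_ hu0
    have h2 : c₀ * (n ^ 2 * M₀) * D ^ (r + 1) * |u i₀| ≤ c₀ * (n ^ 2 * M₀) * D ^ (r + 1) * V :=
      mul_le_mul_of_nonneg_left hUV (by positivity)
    refine h2.trans ?_
    have h3 : 2 * (c₀ * (n ^ 2 * M₀) * D ^ (r + 1) * V) ≤ C * D ^ (r + 1) * V := by
      have h4 : 2 * (c₀ * (n ^ 2 * M₀)) ≤ C := by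
        rw [hC]
        nlinarith [mul_nonneg hc₀0 (by positivity : (0 : ℝ) ≤ 1)]
      have h5 : 0 ≤ D ^ (r + 1) * V := mul_nonneg (by positivity) (hu0.trans hUV)
      calc 2 * (c₀ * (n ^ 2 * M₀) * D ^ (r + 1) * V) =
            2 * (c₀ * (n ^ 2 * M₀)) * (D ^ (r + 1) * V) := by ring
        _ ≤ C * (D ^ (r + 1) * V) := mul_le_mul_of_nonneg_right h4 h5
        _ = C * D ^ (r + 1) * V := by ring
    linarith
  have hfin : |u i₀| ≤ C * D ^ (r + 1) * η / m := by
    rw [le_div_iff₀ hm]
    have h1 : m * |u i₀| ≤ c₀ * D ^ r * η + m / 2 * |u i₀| := by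
      have e : c₀ * D ^ r * (η + n ^ 2 * (M₀ * D) * |u i₀| ^ 2) =
        c₀ * D ^ r * η + c₀ * D ^ r * (n ^ 2 * (M₀ * D) * |u i₀| ^ 2) := by ring
      rw [e] at hmain
      linarith
    have h2 : |u i₀| * m ≤ 2 * c₀ * (D ^ r * η) := by linarith
    refine h2.trans ?_
    have h3 : 2 * c₀ ≤ C := by
      rw [hC]
      have : 0 ≤ c₀ * (n ^ 2 * M₀) := by positivity
      nlinarith
    have h4 : D ^ r * η ≤ D ^ (r + 1) * η := mul_le_mul_of_nonneg_right hDr hη0
    calc 2 * c₀ * (D ^ r * η) ≤ C * (D ^ (r + 1) * η) :=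
          mul_le_mul h3 h4 (by positivity) (by linarith)
      _ = C * D ^ (r + 1) * η := by ring
  intro i
  exact (hvV i).trans hfin

end Pool.POLY
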