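import Pool.Agent.H77.KAL.RMN
import Pool.Agent.H33.KAL.RMG

/-!
# Few grid points at which a polynomial of bounded degree is small
-/

set_option autoImplicit false

namespace Pool.POLY

open Finset Real MvPolynomial

/-- Affine substitution in every variable. -/
noncomputable def affs {k : ℕ} (a b : ℝ) (P : MvPolynomial (Fin k) ℝ) : MvPolynomial (Fin k) ℝ :=
  bind₁ (fun i => C a * X i + C b) P

theorem eval_affs {k : ℕ} (a b : ℝ) (P : MvPolynomial (Fin k) ℝ) (x : Fin k → ℝ) :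
    eval x (affs a b P) = eval (fun i => a * x i + b) P := by
  unfold affs
  rw [← coe_aeval_eq_eval, ← coe_aeval_eq_eval]
  rw [RingHom.coe_coe, RingHom.coe_coe, aeval_bind₁]
  congr 1
  congr 1
  funext i
  simp

theorem degreeOf_affs {k : ℕ} (a b : ℝ) (P : MvPolynomial (Fin k) ℝ) (j : Fin k) :
    (affs a b P).degreeOf j ≤ P.degreeOf j := by
  classical
  unfold affs
  conv_lhs => rw [P.as_sum]
  rw [map_sum]
  refine (degreeOf_sum_le j _ _).trans (Finset.sup_le fun s hs => ?_)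
  rw [bind₁_monomial]
  refine (degreeOf_mul_le _ _ _).trans ?_
  rw [degreeOf_C, zero_add]
  refine (degreeOf_prod_le j _ _).trans ?_
  have h1 : ∀ l ∈ s.support, degreeOf j ((C a * X l + C b : MvPolynomial (Fin k) ℝ) ^ s l) ≤
      if l = j then s l else 0 := by
    intro l _
    refine (degreeOf_pow_le _ _ _).trans ?_
    by_cases hl : l = j
    · subst hl
      rw [if_pos rfl]
      have h2 : degreeOf l (C a * X l + C b : MvPolynomial (Fin k) ℝ) ≤ 1 := by
        refine (degreeOf_add_le _ _ _).trans (max_le ?_ ?_)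
        · refine (degreeOf_mul_le _ _ _).trans ?_
          rw [degreeOf_C, zero_add, degreeOf_X, if_pos rfl]
        · rw [degreeOf_C]
          exact Nat.zero_le _
      calc s l * _ ≤ s l * 1 := Nat.mul_le_mul_left _ h2
        _ = s l := Nat.mul_one _
    · rw [if_neg hl]
      have h2 : degreeOf j (C a * X l + C b : MvPolynomial (Fin k) ℝ) ≤ 0 := by
        refine (degreeOf_add_le _ _ _).trans (max_le ?_ ?_)
        · refine (degreeOf_mul_le _ _ _).trans ?_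
          rw [degreeOf_C, zero_add, degreeOf_X, if_neg (fun h => hl h.symm)]
        · rw [degreeOf_C]
      calc s l * _ ≤ s l * 0 := Nat.mul_le_mul_left _ h2
        _ = 0 := Nat.mul_zero _
  refine (Finset.sum_le_sum h1).trans ?_
  rw [Finset.sum_ite_eq']
  split_ifs
  · exact monomial_le_degreeOf j hs
  · exact Nat.zero_le _

/-- **Few points of the grid are bad.** A polynomial of degree at most `k` in every variable which
is at least `2 ^ (-a)` somewhere in the box is at most `2 ^ (-(a + C (u + 1)))` on a proportion at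
most `2 ^ (-u)` of the points of the grid. -/
theorem bad_card (n k : ℕ) : ∃ C : ℕ, 1 ≤ C ∧ ∀ (Q : MvPolynomial (Fin n) ℝ) (A X a u : ℕ)
    (z : Fin n → ℝ) (F : Finset (Fin n → ℤ)), (∀ i, Q.degreeOf i ≤ k) → (∀ i, |z i| ≤ 2 ^ A) →
    (1 / 2) ^ a ≤ |eval z Q| → C * (u + 1) ≤ X →
    (∀ y ∈ F, ∀ i, |((y i : ℤ) : ℝ)| ≤ 2 ^ A * 2 ^ X) →
    (∀ y ∈ F, |eval (fun i => ((y i : ℤ) : ℝ) / 2 ^ X) Q| ≤ (1 / 2) ^ (a + C * (u + 1))) →
    (F.card : ℝ) ≤ (1 / 2) ^ u * (2 ^ (A + X + 2)) ^ n := by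
  classical
  obtain ⟨Cr, hCr1, hCr⟩ := Pool.KAL.rmn_thm Pool.KAL.rmg_thm n k
  refine ⟨2 * Cr, by omega, ?_⟩
  intro Q A X a u z F hQ hz ha hX hF hsm
  by_contra hcon
  push Not at hcon
  set N : ℕ := 2 ^ (A + X + 2) with hN
  have hNpos : 0 < N := by positivity
  have : NeZero N := ⟨hNpos.ne'⟩
  have hN' : (N : ℝ) = 2 ^ (A + X + 2) := by rw [hN]; push_cast; rfl
  set s₀ : ℤ := 2 ^ (A + X) with hs₀
  have hs₀' : ((s₀ : ℤ) : ℝ) = 2 ^ A * 2 ^ X := by rw [hs₀]; push_cast; rw [pow_add]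
  have hrange : ∀ y ∈ F, ∀ j, 0 ≤ y j + s₀ ∧ (y j + s₀).toNat < N := by
    intro y hy j
    have h1 := abs_le.1 (hF y hy j)
    have h3 : (0 : ℝ) ≤ ((y j + s₀ : ℤ) : ℝ) := by push_cast [hs₀']; linarith
    have h4 : 0 ≤ y j + s₀ := by exact_mod_cast h3
    refine ⟨h4, ?_⟩
    have h5 : ((y j + s₀ : ℤ) : ℝ) < ((N : ℤ) : ℝ) := by
      have : ((N : ℤ) : ℝ) = 4 * (2 ^ A * 2 ^ X) := by rw [hN]; push_cast; ring
      rw [this]
      push_cast [hs₀']
      have : (0 : ℝ) < 2 ^ A * 2 ^ X := by positivity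
      linarith
    have h6 : y j + s₀ < (N : ℤ) := by exact_mod_cast h5
    omega
  set φ : (Fin n → ℤ) → Fin n → Fin N := fun y j => Fin.ofNat N (y j + s₀).toNat with hφ
  have hval : ∀ y ∈ F, ∀ j, ((φ y j : ℕ) : ℝ) = (y j : ℝ) + s₀ := by
    intro y hy j
    obtain ⟨h1, h2⟩ := hrange y hy j
    have h3 : (φ y j : ℕ) = (y j + s₀).toNat := by
      simp only [hφ, Fin.ofNat]
      exact Nat.mod_eq_of_lt h2
    rw [h3]
    have h4 : (((y j + s₀).toNat : ℕ) : ℤ) = y j + s₀ := Int.toNat_of_nonneg h1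
    have h5 : ((((y j + s₀).toNat : ℕ) : ℤ) : ℝ) = ((y j + s₀ : ℤ) : ℝ) := by rw [h4]
    push_cast at h5 ⊢
    exact h5
  have hinj : Set.InjOn φ F := by
    intro y hy y' hy' h
    funext j
    have e1 := hval y hy j
    have e2 := hval y' hy' j
    rw [h] at e1
    have : ((y j : ℤ) : ℝ) = y' j := by linarith
    exact_mod_cast this
  set P' := affs (1 / 2 ^ X : ℝ) (-(2 ^ A : ℝ)) Q with hP'
  have hP'deg : ∀ i, P'.degreeOf i ≤ k := fun i => (degreeOf_affs _ _ Q i).trans (hQ i)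
  have hev : ∀ x : Fin n → ℝ, eval (fun i => 2 ^ X * x i + 2 ^ A * 2 ^ X) P' = eval x Q := by
    intro x
    rw [hP', eval_affs]
    congr 1
    congr 1
    funext i
    have : (2 : ℝ) ^ X ≠ 0 := by positivity
    field_simp
    ring
  set ρ : ℝ := (1 / 2) ^ u with hρ
  have hρ0 : 0 < ρ := by positivity
  have hρ1 : ρ ≤ 1 := pow_le_one₀ (by norm_num) (by norm_num)
  set M : ℝ := (1 / 2) ^ (a + 2 * Cr * (u + 1)) with hM
  have hM0 : 0 ≤ M := by positivity
  have hsub : F.image φ ⊆ univ.filter fun x : Fin n → Fin N =>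
      |MvPolynomial.eval (fun i => ((x i : ℕ) : ℝ)) P'| ≤ M := by
    intro x hx
    rw [Finset.mem_image] at hx
    obtain ⟨y, hy, rfl⟩ := hx
    rw [Finset.mem_filter]
    refine ⟨Finset.mem_univ _, ?_⟩
    have h1 := hsm y hy
    rw [← hev] at h1
    have h2 : (fun i => ((φ y i : ℕ) : ℝ)) =
        fun i => 2 ^ X * (((y i : ℤ) : ℝ) / 2 ^ X) + 2 ^ A * 2 ^ X := by
      funext i
      rw [hval y hy i, hs₀']
      have : (2 : ℝ) ^ X ≠ 0 := by positivity
      field_simp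
    rw [h2]
    exact h1
  have hcard : ρ * (N : ℝ) ^ n ≤ ((univ.filter fun x : Fin n → Fin N =>
      |MvPolynomial.eval (fun i => ((x i : ℕ) : ℝ)) P'| ≤ M).card : ℝ) := by
    have h1 := Finset.card_le_card hsub
    rw [Finset.card_image_of_injOn hinj] at h1
    have h2 : (F.card : ℝ) ≤ ((univ.filter fun x : Fin n → Fin N =>
      |MvPolynomial.eval (fun i => ((x i : ℕ) : ℝ)) P'| ≤ M).card : ℝ) := by exact_mod_cast h1
    rw [hN']
    exact hcon.le.trans h2
  have hCrp : (Cr : ℝ) ≤ 2 ^ Cr := by exact_mod_cast Nat.lt_two_pow_self.le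
  have hcond : (Cr : ℝ) ≤ ρ ^ Cr * N := by
    rw [hN', hρ, ← pow_mul, one_div, inv_pow]
    rw [le_inv_mul_iff₀ (by positivity)]
    calc (2 : ℝ) ^ (u * Cr) * Cr ≤ 2 ^ (u * Cr) * 2 ^ Cr :=
          mul_le_mul_of_nonneg_left hCrp (by positivity)
      _ = 2 ^ (u * Cr + Cr) := by rw [pow_add]
      _ ≤ 2 ^ (A + X + 2) := by
          refine pow_le_pow_right₀ (by norm_num) ?_
          nlinarith
  have hfin := hCr N P' ρ 1 M hP'deg hρ0 hρ1 hcond le_rfl hM0 hcard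
    (fun i => 2 ^ X * z i + 2 ^ A * 2 ^ X) (by
      intro i
      rw [one_mul, hN']
      have h1 : |2 ^ X * z i| ≤ 2 ^ X * 2 ^ A := by
        rw [abs_mul, abs_of_nonneg (by positivity : (0 : ℝ) ≤ 2 ^ X)]
        exact mul_le_mul_of_nonneg_left (hz i) (by positivity)
      refine (abs_add_le _ _).trans ?_
      rw [abs_of_nonneg (by positivity : (0 : ℝ) ≤ 2 ^ A * 2 ^ X)]
      have h2 : (2 : ℝ) ^ (A + X + 2) = 4 * (2 ^ A * 2 ^ X) := by rw [pow_add, pow_add]; ring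
      rw [h2]
      have : (0 : ℝ) < 2 ^ A * 2 ^ X := by positivity
      linarith)
  rw [hev] at hfin
  have h3 : (Cr : ℝ) * (1 / ρ) ^ Cr * M < (1 / 2) ^ a := by
    have e1 : (1 / ρ) ^ Cr = (2 : ℝ) ^ (u * Cr) := by
      rw [hρ, one_div, ← inv_pow, ← pow_mul]; norm_num
    rw [e1]
    have e2 : (Cr : ℝ) * 2 ^ (u * Cr) ≤ 2 ^ (u * Cr + Cr) := by
      rw [pow_add, mul_comm]
      exact mul_le_mul_of_nonneg_left hCrp (by positivity)
    have e3 : M = (1 / 2) ^ a * (1 / 2) ^ (2 * Cr * (u + 1)) := by rw [hM, pow_add]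
    rw [e3]
    have e4 : (2 : ℝ) ^ (u * Cr + Cr) * (1 / 2) ^ (2 * Cr * (u + 1)) < 1 := by
      rw [one_div, inv_pow, mul_inv_lt_iff₀ (by positivity), one_mul]
      refine pow_lt_pow_right₀ (by norm_num) ?_
      nlinarith
    have e5 : (0 : ℝ) < (1 / 2) ^ a := by positivity
    have e6 : (0 : ℝ) < (1 / 2) ^ (2 * Cr * (u + 1)) := by positivity
    calc (Cr : ℝ) * 2 ^ (u * Cr) * ((1 / 2) ^ a * (1 / 2) ^ (2 * Cr * (u + 1)))
        ≤ 2 ^ (u * Cr + Cr) * ((1 / 2) ^ a * (1 / 2) ^ (2 * Cr * (u + 1))) :=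
          mul_le_mul_of_nonneg_right e2 (by positivity)
      _ = (1 / 2) ^ a * (2 ^ (u * Cr + Cr) * (1 / 2) ^ (2 * Cr * (u + 1))) := by ring
      _ < (1 / 2) ^ a * 1 := mul_lt_mul_of_pos_left e4 e5
      _ = (1 / 2) ^ a := mul_one _
  linarith

end Pool.POLY
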