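import Pool.Agent.H89.GEN.PolyA
import Pool.Agent.H89.GEN.PolyB
import Pool.Agent.H32.Dense.EntX

/-!
# Entropy of the image of a full vector under a polynomial map

`y` is a random integer vector (units `2 ^ (-X)`) which is almost full given `c`, and `P` is a
polynomial map (with coefficients which depend on `c`) one of whose Jacobian minors of order `r` is
not small somewhere on the box. Then the rounded image has entropy at least `r X` up to small
losses.
-/

set_option autoImplicit false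

namespace Pool.POLY

open Finset Real
open Pool.Agent.H49.Ent Pool.Agent.H32.Dense Pool.STK

section

variable {Ω κ : Type} [Fintype Ω]

/-- The box of integer points. -/
noncomputable def box (n A X : ℕ) : Finset (Fin n → ℤ) :=
  Fintype.piFinset fun _ => Finset.Icc (-(2 ^ (A + X))) (2 ^ (A + X))

theorem mem_box {n A X : ℕ} {y : Fin n → ℤ} :
    y ∈ box n A X ↔ ∀ i, |((y i : ℤ) : ℝ)| ≤ 2 ^ A * 2 ^ X := by
  unfold box
  rw [Fintype.mem_piFinset]
  refine forall_congr' fun i => ?_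
  rw [Finset.mem_Icc, ← abs_le, ← pow_add]
  exact_mod_cast Iff.rfl

theorem card_Icc_le (m : ℕ) : ((Finset.Icc (-(2 ^ m) : ℤ) (2 ^ m)).card : ℝ) ≤ 2 ^ (m + 2) := by
  rw [Int.card_Icc]
  have h0 : (0 : ℤ) ≤ 2 ^ m := by positivity
  have h1 : ((2 ^ m + 1 - -2 ^ m : ℤ).toNat : ℤ) = 2 * 2 ^ m + 1 := by
    rw [Int.toNat_of_nonneg (by linarith)]
    ring
  have h2 : ((2 ^ m + 1 - -2 ^ m : ℤ).toNat : ℝ) = 2 * 2 ^ m + 1 := by exact_mod_cast h1
  rw [h2, pow_add]
  have : (1 : ℝ) ≤ 2 ^ m := one_le_pow₀ (by norm_num)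
  linarith

theorem card_Icc_pos (m : ℕ) : 1 ≤ (Finset.Icc (-(2 ^ m) : ℤ) (2 ^ m)).card :=
  Finset.card_pos.mpr ⟨0, by rw [Finset.mem_Icc]; constructor <;> simp⟩

theorem box_card (n A X : ℕ) : ((box n A X).card : ℝ) ≤ (2 ^ (A + X + 2)) ^ n := by
  unfold box
  rw [Fintype.card_piFinset, Finset.prod_const, Finset.card_univ, Fintype.card_fin]
  push_cast
  exact pow_le_pow_left₀ (Nat.cast_nonneg _) (card_Icc_le _) n

open Classical in
/-- Zero one variable. -/
noncomputable def in1 (P : Prop) : ℝ := if P then 1 else 0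

/-- The bad event is rare. -/
theorem bad_prob (n k : ℕ) : ∃ C : ℕ, 1 ≤ C ∧ ∀ (Ω κ : Type) [Fintype Ω] (p : Ω → ℝ)
    (X A a u : ℕ) (y : Ω → Fin n → ℤ) (c : Ω → κ) (Q : κ → MvPolynomial (Fin n) ℝ) (e : ℝ),
    IsLaw p → (∀ ω, 0 < p ω → ∀ i, |((y ω i : ℤ) : ℝ)| ≤ 2 ^ A * 2 ^ X) →
    (∀ v i, (Q v).degreeOf i ≤ k) →
    (∀ ω, 0 < p ω → ∃ z : Fin n → ℝ, (∀ i, |z i| ≤ 2 ^ A) ∧
      (1 / 2) ^ a ≤ |MvPolynomial.eval z (Q (c ω))|) →
    n * (X * Real.log 2) - e ≤ CH p y c → C * (u + 1) ≤ X →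
    u * Real.log 2 * Ex p (fun ω => in1 (|MvPolynomial.eval (fun i => ((y ω i : ℤ) : ℝ) / 2 ^ X)
      (Q (c ω))| ≤ (1 / 2) ^ (a + C * (u + 1)))) ≤ e + (1 + n * (A + 2)) * Real.log 2 := by
  classical
  obtain ⟨C, hC1, hC⟩ := bad_card n k
  refine ⟨C, hC1, ?_⟩
  intro Ω κ _ p X A a u y c Q e hp hy hQ hz hH hX
  have hl2 : 0 < Real.log 2 := Real.log_pos (by norm_num)
  set bad : Ω → Prop := fun ω => |MvPolynomial.eval (fun i => ((y ω i : ℤ) : ℝ) / 2 ^ X)
      (Q (c ω))| ≤ (1 / 2) ^ (a + C * (u + 1)) with hbad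
  set I : Ω → Bool := fun ω => decide (bad ω) with hI
  set badF : κ → Finset (Fin n → ℤ) := fun v => (box n A X).filter fun x =>
    |MvPolynomial.eval (fun i => ((x i : ℤ) : ℝ) / 2 ^ X) (Q v)| ≤ (1 / 2) ^ (a + C * (u + 1))
    with hbadF
  have h1 : CH p y c ≤ CH p I c + CH p y (fun ω => (I ω, c ω)) := CH_le_add hp.nonneg y I c
  have h2 : CH p I c ≤ Real.log 2 := by
    have h3 := CH_le_card hp.nonneg hp.sum_one I c (fun _ => Finset.univ)
      (fun ω _ => Finset.mem_univ _)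
    refine h3.trans ?_
    rw [Ex_const hp.sum_one]
    simp
  have h3 : CH p y (fun ω => (I ω, c ω)) ≤ Ex p (fun ω => n * (A + X + 2) * Real.log 2 -
      u * Real.log 2 * in1 (bad ω)) := by
    refine (CH_le_card hp.nonneg hp.sum_one y (fun ω => (I ω, c ω))
      (fun w => if w.1 = true then badF w.2 else box n A X) ?_).trans ?_
    · intro ω hω
      dsimp only
      split_ifs with h
      · rw [hbadF]
        dsimp only
        rw [Finset.mem_filter]
        exact ⟨mem_box.2 (hy ω hω), of_decide_eq_true h⟩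
      · exact mem_box.2 (hy ω hω)
    · refine Ex_mono hp.nonneg fun ω hω => ?_
      dsimp only
      by_cases h : bad ω
      · have h4 : I ω = true := decide_eq_true h
        rw [if_pos h4]
        have h5 : y ω ∈ badF (c ω) := by
          rw [hbadF]
          dsimp only
          rw [Finset.mem_filter]
          exact ⟨mem_box.2 (hy ω hω), h⟩
        have h6 : (0 : ℝ) < (badF (c ω)).card := by
          exact_mod_cast Finset.card_pos.mpr ⟨_, h5⟩
        obtain ⟨z, hz1, hz2⟩ := hz ω hω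
        have h7 := hC (Q (c ω)) A X a u z (badF (c ω)) (hQ _) hz1 hz2 hX
          (fun x hx => mem_box.1 (Finset.mem_filter.1 hx).1)
          (fun x hx => (Finset.mem_filter.1 hx).2)
        have h8 := Real.log_le_log h6 h7
        rw [Real.log_mul (by positivity) (by positivity), Real.log_pow, Real.log_pow,
          Real.log_pow, one_div, Real.log_inv] at h8
        unfold in1
        rw [if_pos h]
        push_cast at h8
        linarith
      · have h4 : ¬ I ω = true := fun h' => h (of_decide_eq_true h')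
        rw [if_neg h4]
        have h6 : (0 : ℝ) < (box n A X).card := by
          exact_mod_cast Finset.card_pos.mpr ⟨_, mem_box.2 (hy ω hω)⟩
        have h8 := Real.log_le_log h6 (box_card n A X)
        rw [Real.log_pow, Real.log_pow] at h8
        unfold in1
        rw [if_neg h]
        push_cast at h8
        linarith
  have h4 := Ex_sub p (fun _ => n * (A + X + 2) * Real.log 2) (fun ω => u * Real.log 2 *
    in1 (bad ω))
  rw [h4, Ex_const hp.sum_one, Ex_smul] at h3
  linarith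

/-- Repeated columns. -/
theorem inj_of_jac {n r : ℕ} (P : Fin r → MvPolynomial (Fin n) ℝ) (I : Fin r → Fin n)
    (z : Fin n → ℝ) (h : MvPolynomial.eval z (jac P I) ≠ 0) : Function.Injective I := by
  intro j j' hj
  by_contra hne
  apply h
  rw [eval_jac]
  refine Matrix.det_zero_of_column_eq hne fun i => ?_
  simp only [Matrix.of_apply]
  rw [hj]

theorem ar1 {c K r C a b A u : ℝ} (e1 : 0 ≤ c) (e2 : 0 ≤ K) (e3 : 0 ≤ r) (e4 : 0 ≤ C)
    (e5 : 0 ≤ a) (e6 : 0 ≤ b) (e7 : 0 ≤ A) (e8 : 1 ≤ u) :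
    c + (b + K * A) * (r + 1) + a + C * (u + 1) + A ≤
      (c + (1 + K) * (r + 1) + 1 + 2 * C + 1) * (a + b + u + A + 1) := by
  have h1 : c ≤ c * (a + b + u + A + 1) := le_mul_of_one_le_right e1 (by linarith)
  have h2 : b + K * A ≤ (1 + K) * (a + b + u + A + 1) := by
    have : K * A ≤ K * (a + b + u + A + 1) := mul_le_mul_of_nonneg_left (by linarith) e2
    linarith
  have h3 : (b + K * A) * (r + 1) ≤ (1 + K) * (a + b + u + A + 1) * (r + 1) :=
    mul_le_mul_of_nonneg_right h2 (by linarith)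
  have h4 : C * (u + 1) ≤ C * (2 * (a + b + u + A + 1)) :=
    mul_le_mul_of_nonneg_left (by linarith) e4
  linarith

theorem ar2 {w w' y y' P Q : ℝ} (hP : 0 < P) (hQ : 1 ≤ Q) (h1 : w * P ≤ y)
    (h2 : y < (w + 1) * P) (h3 : w' * P ≤ y') (h4 : y' < (w' + 1) * P)
    (h5 : |y - y'| ≤ Q * P) : |w - w'| ≤ 2 * Q := by
  have h6 := abs_le.1 h5
  have h7 : (w - w') * P ≤ 2 * Q * P := by
    have : 1 * P ≤ Q * P := mul_le_mul_of_nonneg_right hQ hP.le
    linarith
  have h8 : (w' - w) * P ≤ 2 * Q * P := by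
    have : 1 * P ≤ Q * P := mul_le_mul_of_nonneg_right hQ hP.le
    linarith
  have h9 := le_of_mul_le_mul_right h7 hP
  have h10 := le_of_mul_le_mul_right h8 hP
  rw [abs_le]
  constructor <;> linarith

theorem ar3 {w y y' P : ℝ} (h1 : w * P ≤ y) (h2 : y < (w + 1) * P) (h3 : w * P ≤ y')
    (h4 : y' < (w + 1) * P) : |y' - y| ≤ P := by
  rw [abs_le]
  constructor <;> linarith

theorem ar4 {r C₂ N X S L : ℝ} (hr : 0 ≤ r) (hN : 0 ≤ N) (hC₂ : 0 ≤ C₂) (hX : X ≤ C₂ * S)
    (hS : 0 ≤ S) (hL : 0 ≤ L) : r * (X * L) ≤ ((r + 1) * C₂ + N) * S * L := by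
  have h1 : r * X ≤ r * (C₂ * S) := mul_le_mul_of_nonneg_left hX hr
  have h2 : r * C₂ ≤ (r + 1) * C₂ + N := by linarith
  have h3 := mul_le_mul_of_nonneg_right h2 hS
  have h4 : r * X ≤ ((r + 1) * C₂ + N) * S := by linarith
  have h5 := mul_le_mul_of_nonneg_right h4 hL
  linarith

theorem ar5 {e A X u : ℝ} (he : 0 ≤ e) (hA : 0 ≤ A) (hu : 0 < u) (h : u ≤ X) :
    e ≤ X * (e + A + 1) / u := by
  rw [le_div_iff₀ hu, mul_comm e u]
  exact mul_le_mul h (by linarith) he (by linarith)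

theorem ar6 {e A n L β u : ℝ} (he : 0 ≤ e) (hA : 0 ≤ A) (hn : 0 ≤ n) (hu : 0 < u) (hL : L ≤ 1)
    (h : u * L * β ≤ e + (1 + n * (A + 2)) * L) : β * L ≤ (2 * n + 1) * (e + A + 1) / u := by
  rw [le_div_iff₀ hu]
  have e1 : (1 + n * (A + 2)) * L ≤ 1 + n * (A + 2) := mul_le_of_le_one_right (by positivity) hL
  have e2 : 0 ≤ n * e := mul_nonneg hn he
  have e3 : 0 ≤ n * A := mul_nonneg hn hA
  linarith

theorem ar7 {n r A X S L : ℝ} (hr : 0 ≤ r) (hrn : r ≤ n) (hA : 0 ≤ A) (hS : A + 1 ≤ S)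
    (hL : 0 ≤ L) : (n - r) * (A + X + 2) * L ≤ (n - r) * (X * L) + 2 * n * S * L := by
  have e1 : (n - r) * (A + 2) ≤ n * (2 * S) :=
    mul_le_mul (by linarith) (by linarith) (by linarith) (by linarith)
  have e2 := mul_le_mul_of_nonneg_right e1 hL
  linarith

theorem ar8 {n A s C₂ S L k : ℝ} (hn : 0 ≤ n) (hk : 0 ≤ k) (hS : A + 1 ≤ S) (hA : 0 ≤ A)
    (hs : s ≤ C₂ * S) (hL : 0 ≤ L) :
    n * ((A + s + (k + 1)) * L) ≤ ((k + 1) * n + n * C₂) * S * L := by
  have e3 : A + (k + 1) ≤ (k + 1) * S := by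
    have : k * 1 ≤ k * S := mul_le_mul_of_nonneg_left (by linarith) hk
    linarith
  have e2 : A + s + (k + 1) ≤ (k + 1) * S + C₂ * S := by linarith
  have e4 := mul_le_mul_of_nonneg_left e2 hn
  have e5 := mul_le_mul_of_nonneg_right e4 hL
  linarith

/-- **Image of a full vector.** -/
theorem poly_ent (n r K : ℕ) : ∃ C : ℝ, 1 ≤ C ∧ ∀ (Ω κ : Type) [Fintype Ω] (p : Ω → ℝ)
    (X A a b u : ℕ) (y : Ω → Fin n → ℤ) (c : Ω → κ) (P : κ → Fin r → MvPolynomial (Fin n) ℝ)
    (I : κ → Fin r → Fin n) (e : ℝ), IsLaw p → 1 ≤ u → 0 ≤ e →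
    (∀ ω, 0 < p ω → ∀ i, |((y ω i : ℤ) : ℝ)| ≤ 2 ^ A * 2 ^ X) →
    (∀ v j, (P v j).totalDegree ≤ K) → (∀ v j m, |MvPolynomial.coeff m (P v j)| ≤ 2 ^ b) →
    (∀ ω, 0 < p ω → ∃ z : Fin n → ℝ, (∀ i, |z i| ≤ 2 ^ A) ∧
      (1 / 2) ^ a ≤ |MvPolynomial.eval z (jac (P (c ω)) (I (c ω)))|) →
    n * (X * Real.log 2) - e ≤ CH p y c →
    r * (X * Real.log 2) - C * (a + b + u + A + 1) * Real.log 2 - C * (X * (e + A + 1) / u) ≤
      CH p (fun ω j => ⌊2 ^ X * MvPolynomial.eval (fun i => ((y ω i : ℤ) : ℝ) / 2 ^ X)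
        (P (c ω) j)⌋) c := by
  classical
  obtain ⟨C₁, hC₁1, hC₁⟩ := bad_prob n (r * K)
  obtain ⟨C₀, hC₀1, hC₀⟩ := loc_inj n r K
  obtain ⟨c₀, hc₀⟩ : ∃ c₀ : ℕ, C₀ ≤ 2 ^ c₀ := by
    obtain ⟨m, hm⟩ := pow_unbounded_of_one_lt C₀ (by norm_num : (1 : ℝ) < 2)
    exact ⟨m, hm.le⟩
  have hl2 : 0 < Real.log 2 := Real.log_pos (by norm_num)
  have hl2' : Real.log 2 ≤ 1 := by linarith [Real.log_two_lt_d9]
  -- the number of digits: `s = c₀ + (b + K A) (r + 1) + a + C₁ (u + 1) + A`
  set C₂ : ℝ := c₀ + (1 + K) * (r + 1) + 1 + 2 * C₁ + 1 with hC₂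
  have hC₂0 : 1 ≤ C₂ := by
    have : (0 : ℝ) ≤ c₀ + (1 + K) * (r + 1) + 2 * C₁ + 1 := by positivity
    linarith
  set C : ℝ := (r + 1) * C₂ + (1 + (n + 1) * 2 + 6 * n + 2 * n * C₂ + 5 * n * (2 * n + 1) + 1)
    with hC
  have hC1 : 1 ≤ C := by
    have : (0 : ℝ) ≤ (r + 1) * C₂ + (1 + (n + 1) * 2 + 6 * n + 2 * n * C₂ +
      5 * n * (2 * n + 1)) := by positivity
    linarith
  refine ⟨C, hC1, ?_⟩
  intro Ω κ _ p X A a b u y c P I e hp hu he hy hdeg hcoeff hz hH
  set Y : Ω → Fin r → ℤ := fun ω j => ⌊2 ^ X * MvPolynomial.eval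
    (fun i => ((y ω i : ℤ) : ℝ) / 2 ^ X) (P (c ω) j)⌋ with hY
  have hu' : (1 : ℝ) ≤ u := by exact_mod_cast hu
  set s : ℕ := c₀ + (b + K * A) * (r + 1) + a + C₁ * (u + 1) + A with hs
  have hsC : (s : ℝ) ≤ C₂ * (a + b + u + A + 1) := by
    rw [hs, hC₂]
    push_cast
    exact ar1 (Nat.cast_nonneg _) (Nat.cast_nonneg _) (Nat.cast_nonneg _) (Nat.cast_nonneg _)
      (Nat.cast_nonneg _) (Nat.cast_nonneg _) (Nat.cast_nonneg _) hu'
  have hT : (0 : ℝ) ≤ X * (e + A + 1) / u := by positivity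
  have hCH0 : 0 ≤ CH p Y c := CH_nonneg hp.nonneg _ _
  -- the trivial case
  by_cases hsX : s ≤ X
  swap
  · push Not at hsX
    have h1 : (X : ℝ) ≤ C₂ * (a + b + u + A + 1) := by
      have : (X : ℝ) ≤ s := by exact_mod_cast hsX.le
      linarith
    have h2 : (r : ℝ) * (X * Real.log 2) ≤ C * (a + b + u + A + 1) * Real.log 2 := by
      rw [hC]
      exact ar4 (Nat.cast_nonneg _) (by positivity) (by linarith) h1 (by positivity) hl2.le
    have h5 : 0 ≤ C * (X * (e + A + 1) / u) := mul_nonneg (by linarith) hT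
    linarith
  have hsX' : (s : ℝ) ≤ X := by exact_mod_cast hsX
  -- `r ≤ n`
  obtain ⟨ω₀, hω₀⟩ : ∃ ω, 0 < p ω := by
    by_contra hcon
    push Not at hcon
    have : ∑ ω, p ω = 0 := Finset.sum_eq_zero fun ω _ => le_antisymm (hcon ω) (hp.nonneg ω)
    rw [hp.sum_one] at this
    norm_num at this
  have hinj : ∀ ω, 0 < p ω → Function.Injective (I (c ω)) := by
    intro ω hω
    obtain ⟨z, _, hz2⟩ := hz ω hω
    refine inj_of_jac (P (c ω)) (I (c ω)) z fun h => ?_
    rw [h, abs_zero] at hz2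
    have : (0 : ℝ) < (1 / 2) ^ a := by positivity
    linarith
  have hrn : r ≤ n := by
    have := Fintype.card_le_of_injective _ (hinj ω₀ hω₀)
    simpa using this
  have hrn' : (r : ℝ) ≤ n := by exact_mod_cast hrn
  -- the good event
  set m : ℝ := (1 / 2) ^ (a + C₁ * (u + 1)) with hm
  have hm0 : 0 < m := by positivity
  set bad : Ω → Prop := fun ω => |MvPolynomial.eval (fun i => ((y ω i : ℤ) : ℝ) / 2 ^ X)
      (jac (P (c ω)) (I (c ω)))| ≤ m with hbad
  set g : Ω → Bool := fun ω => decide (bad ω) with hg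
  set β : ℝ := Ex p (fun ω => in1 (bad ω)) with hβ
  have hβ0 : 0 ≤ β := Ex_nonneg hp.nonneg fun ω _ => by unfold in1; split_ifs <;> norm_num
  have hβ1 : u * Real.log 2 * β ≤ e + (1 + n * (A + 2)) * Real.log 2 :=
    hC₁ Ω κ p X A a u y c (fun v => jac (P v) (I v)) e hp hy
      (fun v i => degree_jac _ _ (hdeg v) i) hz hH (by omega)
  -- the chain of conditionings
  set yo : Ω → Fin n → ℤ := fun ω i => if ∃ j, I (c ω) j = i then 0 else y ω i with hyo
  set w : Ω → Fin n → ℤ := fun ω i => y ω i / 2 ^ (X - s) with hw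
  have h1 : CH p y c ≤ CH p Y c + CH p y (fun ω => (Y ω, c ω)) := CH_le_add hp.nonneg y Y c
  have h2 : CH p y (fun ω => (Y ω, c ω)) ≤ CH p g (fun ω => (Y ω, c ω)) +
      CH p y (fun ω => (g ω, (Y ω, c ω))) := CH_le_add hp.nonneg y g _
  have h3 : CH p y (fun ω => (g ω, (Y ω, c ω))) ≤ CH p yo (fun ω => (g ω, (Y ω, c ω))) +
      CH p y (fun ω => (yo ω, (g ω, (Y ω, c ω)))) := CH_le_add hp.nonneg y yo _
  have h4 : CH p y (fun ω => (yo ω, (g ω, (Y ω, c ω)))) ≤
      CH p w (fun ω => (yo ω, (g ω, (Y ω, c ω)))) +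
      CH p y (fun ω => (w ω, (yo ω, (g ω, (Y ω, c ω))))) := CH_le_add hp.nonneg y w _
  -- the indicator
  have h5 : CH p g (fun ω => (Y ω, c ω)) ≤ Real.log 2 := by
    have h6 := CH_le_card hp.nonneg hp.sum_one g (fun ω => (Y ω, c ω)) (fun _ => Finset.univ)
      (fun ω _ => Finset.mem_univ _)
    refine h6.trans ?_
    rw [Ex_const hp.sum_one]
    simp
  -- the coordinates outside of the minor
  have h6 : CH p yo (fun ω => (g ω, (Y ω, c ω))) ≤ (n - r) * (A + X + 2) * Real.log 2 := by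
    refine (CH_le_card hp.nonneg hp.sum_one yo (fun ω => (g ω, (Y ω, c ω)))
      (fun q => Fintype.piFinset fun i => if ∃ j, I q.2.2 j = i then {0} else
        Finset.Icc (-(2 ^ (A + X))) (2 ^ (A + X))) ?_).trans ?_
    · intro ω hω
      dsimp only
      rw [Fintype.mem_piFinset]
      intro i
      rw [hyo]
      dsimp only
      split_ifs with h
      · exact Finset.mem_singleton_self _
      · rw [Finset.mem_Icc, ← abs_le]
        have h7 := hy ω hω i
        rw [← pow_add] at h7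
        exact_mod_cast h7
    · have h7 : Ex p (fun _ => (n - r) * (A + X + 2) * Real.log 2) =
          (n - r) * (A + X + 2) * Real.log 2 := Ex_const hp.sum_one _
      rw [← h7]
      refine Ex_mono hp.nonneg fun ω hω => ?_
      dsimp only
      rw [Fintype.card_piFinset]
      have h8 : ∀ i : Fin n, (if ∃ j, I (c ω) j = i then ({0} : Finset ℤ) else
          Finset.Icc (-(2 ^ (A + X))) (2 ^ (A + X))).card = if ∃ j, I (c ω) j = i then 1 else
          (Finset.Icc (-(2 ^ (A + X)) : ℤ) (2 ^ (A + X))).card := by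
        intro i
        split_ifs <;> simp
      rw [Finset.prod_congr rfl fun i _ => h8 i, Finset.prod_ite, Finset.prod_const_one, one_mul,
        Finset.prod_const]
      have h9 : (Finset.univ.filter fun i : Fin n => ¬ ∃ j, I (c ω) j = i).card = n - r := by
        have h10 : (Finset.univ.filter fun i : Fin n => ∃ j, I (c ω) j = i) =
            Finset.univ.image (I (c ω)) := by
          ext i
          simp
        rw [Finset.filter_not, Finset.card_sdiff_of_subset (Finset.filter_subset _ _), h10,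
          Finset.card_image_of_injective _ (hinj ω hω)]
        simp
      rw [h9]
      push_cast
      rw [Real.log_pow]
      have h11 := Real.log_le_log (by exact_mod_cast card_Icc_pos (A + X)) (card_Icc_le (A + X))
      rw [Real.log_pow] at h11
      rw [Nat.cast_sub hrn]
      have h12 : (0 : ℝ) ≤ n - r := by linarith
      calc ((n : ℝ) - r) * Real.log ((Finset.Icc (-(2 ^ (A + X)) : ℤ) (2 ^ (A + X))).card : ℝ)
          ≤ (n - r) * (((A + X + 2 : ℕ) : ℝ) * Real.log 2) := mul_le_mul_of_nonneg_left h11 h12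
        _ = (n - r) * (A + X + 2) * Real.log 2 := by push_cast; ring
  -- the coarse digits
  have hdiff : ∀ ω ω', 0 < p ω → 0 < p ω' → ∀ i, |((y ω i - y ω' i : ℤ) : ℝ)| ≤
      2 ^ (A + X + 1) := by
    intro ω ω' hω hω' i
    push_cast
    refine (abs_sub _ _).trans ?_
    have := hy ω hω i
    have := hy ω' hω' i
    rw [pow_succ, pow_add]
    linarith
  have hpos : (0 : ℝ) < 2 ^ (X - s) := by positivity
  have hXs : (2 : ℝ) ^ X = 2 ^ (X - s) * 2 ^ s := by rw [← pow_add, Nat.sub_add_cancel hsX]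
  have hfl : ∀ ω i, (w ω i : ℝ) * 2 ^ (X - s) ≤ y ω i ∧
      (y ω i : ℝ) < (w ω i + 1) * 2 ^ (X - s) := by
    intro ω i
    have e1 : (0 : ℤ) < 2 ^ (X - s) := by positivity
    have e2 := Int.ediv_mul_le (y ω i) e1.ne'
    have e3 := Int.lt_ediv_add_one_mul_self (y ω i) e1
    constructor
    · have : ((w ω i * 2 ^ (X - s) : ℤ) : ℝ) ≤ y ω i := by exact_mod_cast e2
      push_cast at this
      exact this
    · have : ((y ω i : ℤ) : ℝ) < (((w ω i + 1) * 2 ^ (X - s) : ℤ) : ℝ) := by exact_mod_cast e3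
      push_cast at this
      exact this
  have h7 : CH p w (fun ω => (yo ω, (g ω, (Y ω, c ω)))) ≤ n * ((A + s + 4) * Real.log 2) := by
    refine (CH_le_vec hp.nonneg hp.sum_one w _ (fun _ => 2 ^ (A + s + 2)) ?_).trans ?_
    · intro ω ω' hω hω' _ i
      have e1 := hfl ω i
      have e2 := hfl ω' i
      have e3 := hdiff ω ω' hω hω' i
      have e4 : (2 : ℝ) ^ (A + X + 1) = 2 ^ (A + s + 1) * 2 ^ (X - s) := by
        rw [← pow_add]
        congr 1
        omega
      rw [e4] at e3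
      push_cast at e3 ⊢
      have e5 : (1 : ℝ) ≤ 2 ^ (A + s + 1) := one_le_pow₀ (by norm_num)
      have e6 : (2 : ℝ) ^ (A + s + 2) = 2 * 2 ^ (A + s + 1) := by rw [pow_succ]; ring
      rw [e6]
      exact ar2 hpos e5 e1.1 e1.2 e2.1 e2.2 e3
    · rw [Ex_const hp.sum_one]
      refine mul_le_mul_of_nonneg_left ?_ (Nat.cast_nonneg _)
      have e1 : (2 : ℝ) * 2 ^ (A + s + 2) + 1 ≤ 2 ^ (A + s + 4) := by
        have e5 : (1 : ℝ) ≤ 2 ^ (A + s + 2) := one_le_pow₀ (by norm_num)
        have e6 : (2 : ℝ) ^ (A + s + 4) = 4 * 2 ^ (A + s + 2) := by rw [pow_add _ (A + s + 2) 2]; ring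
        rw [e6]
        linarith
      refine (Real.log_le_log (by positivity) e1).trans ?_
      rw [Real.log_pow]
      push_cast
      exact le_rfl
  -- the fine digits
  have h8 : CH p y (fun ω => (w ω, (yo ω, (g ω, (Y ω, c ω))))) ≤
      n * ((s + 2) * Real.log 2 + β * ((A + X + 3) * Real.log 2)) := by
    refine (CH_le_vec hp.nonneg hp.sum_one y _
      (fun ω => if bad ω then 2 ^ (A + X + 1) else 2 ^ s) ?_).trans ?_
    · intro ω ω' hω hω' h i
      split_ifs with hb
      · exact hdiff ω ω' hω hω' i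
      · simp only [Prod.mk.injEq] at h
        obtain ⟨k1, k2, k3, k4, k5⟩ := h
        have hb' : ¬ bad ω' := by
          intro h'
          have : g ω' = true := decide_eq_true h'
          rw [← k3] at this
          exact hb (of_decide_eq_true this)
        have hb2 : m ≤ |MvPolynomial.eval (fun i => ((y ω i : ℤ) : ℝ) / 2 ^ X)
            (jac (P (c ω)) (I (c ω)))| := by
          rw [hbad] at hb
          push Not at hb
          exact hb.le
        have hX0 : (0 : ℝ) < 2 ^ X := by positivity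
        have hbox : ∀ ω, 0 < p ω → ∀ i, |((y ω i : ℤ) : ℝ) / 2 ^ X| ≤ 2 ^ A := by
          intro ω hω i
          rw [abs_div, abs_of_pos hX0, div_le_iff₀ hX0]
          exact hy ω hω i
        have hD : (2 ^ b * (2 ^ A) ^ K : ℝ) ^ (r + 1) = 2 ^ ((b + K * A) * (r + 1)) := by
          rw [← pow_mul, ← pow_add, ← pow_mul]
          congr 1
          ring
        have hCD : C₀ * (2 ^ b * (2 ^ A) ^ K : ℝ) ^ (r + 1) ≤ 2 ^ s * m := by
          rw [hD, hm, hs]
          have e1 : (2 : ℝ) ^ (c₀ + (b + K * A) * (r + 1) + a + C₁ * (u + 1) + A) *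
              (1 / 2) ^ (a + C₁ * (u + 1)) = 2 ^ c₀ * 2 ^ ((b + K * A) * (r + 1)) * 2 ^ A := by
            rw [pow_add _ _ A, add_assoc _ a, pow_add _ _ (a + C₁ * (u + 1)), pow_add _ c₀]
            have e2 : (2 : ℝ) ^ (a + C₁ * (u + 1)) * (1 / 2) ^ (a + C₁ * (u + 1)) = 1 := by
              rw [← mul_pow]
              norm_num
            linear_combination (2 ^ c₀ * 2 ^ ((b + K * A) * (r + 1)) * 2 ^ A) * e2
          rw [e1]
          have e3 : (1 : ℝ) ≤ 2 ^ A := one_le_pow₀ (by norm_num)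
          calc C₀ * 2 ^ ((b + K * A) * (r + 1)) ≤ 2 ^ c₀ * 2 ^ ((b + K * A) * (r + 1)) :=
                mul_le_mul_of_nonneg_right hc₀ (by positivity)
            _ ≤ _ := le_mul_of_one_le_right (by positivity) e3
        have key := hC₀ (P (c ω)) (I (c ω)) (2 ^ b) (2 ^ A) m (1 / 2 ^ X) (1 / 2 ^ s)
          (fun i => ((y ω i : ℤ) : ℝ) / 2 ^ X) (fun i => ((y ω' i : ℤ) : ℝ) / 2 ^ X)
          (one_le_pow₀ (by norm_num)) (one_le_pow₀ (by norm_num)) (by positivity)
          (hdeg _) (hcoeff _) (hbox ω hω) (hbox ω' hω') (by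
            intro l hl
            have e1 := congrFun k2 l
            rw [hyo] at e1
            dsimp only at e1
            rw [← k5] at e1
            have e2 : ¬ ∃ j, I (c ω) j = l := fun ⟨j, hj⟩ => hl j hj
            rw [if_neg e2, if_neg e2] at e1
            rw [e1]) hm0 hb2 (by
            intro l
            have e1 := hfl ω l
            have e2 := hfl ω' l
            rw [congrFun k1 l] at e1
            have e3 : (1 : ℝ) / 2 ^ s = 2 ^ (X - s) / 2 ^ X := by
              rw [hXs]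
              field_simp
            rw [e3, ← sub_div, abs_div, abs_of_pos hX0]
            refine div_le_div_of_nonneg_right ?_ hX0.le
            exact ar3 e1.1 e1.2 e2.1 e2.2) (by
            calc C₀ * (2 ^ b * (2 ^ A) ^ K : ℝ) ^ (r + 1) * (1 / 2 ^ s)
                ≤ 2 ^ s * m * (1 / 2 ^ s) :=
                  mul_le_mul_of_nonneg_right hCD (by positivity)
              _ = m := by field_simp) (by
            intro j
            have e1 := congrFun k4 j
            rw [hY] at e1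
            dsimp only at e1
            rw [← k5] at e1
            have e2 := Int.abs_sub_lt_one_of_floor_eq_floor e1.symm
            rw [← mul_sub, abs_mul, abs_of_pos hX0] at e2
            rw [le_div_iff₀ hX0]
            linarith) i
        have e7 : C₀ * (2 ^ b * (2 ^ A) ^ K : ℝ) ^ (r + 1) * (1 / 2 ^ X) / m ≤
            2 ^ s / 2 ^ X := by
          rw [div_le_iff₀ hm0]
          calc C₀ * (2 ^ b * (2 ^ A) ^ K : ℝ) ^ (r + 1) * (1 / 2 ^ X)
              ≤ 2 ^ s * m * (1 / 2 ^ X) := mul_le_mul_of_nonneg_right hCD (by positivity)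
            _ = 2 ^ s / 2 ^ X * m := by ring
        have e8 := key.trans e7
        rw [← sub_div, abs_div, abs_of_pos hX0] at e8
        have e9 := (div_le_div_iff_of_pos_right hX0).1 e8
        push_cast
        rw [abs_sub_comm]
        exact e9
    · refine mul_le_mul_of_nonneg_left ?_ (Nat.cast_nonneg _)
      have e1 : Ex p (fun ω => (s + 2) * Real.log 2 + ((A + X + 3) * Real.log 2) *
          in1 (bad ω)) = (s + 2) * Real.log 2 + β * ((A + X + 3) * Real.log 2) := by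
        rw [Ex_add, Ex_const hp.sum_one, Ex_smul]
        ring
      rw [← e1]
      refine Ex_mono hp.nonneg fun ω hω => ?_
      by_cases hb : bad ω
      · rw [if_pos hb]
        unfold in1
        rw [if_pos hb, mul_one]
        have e2 : (2 : ℝ) * 2 ^ (A + X + 1) + 1 ≤ 2 ^ (A + X + 3) := by
          have e5 : (1 : ℝ) ≤ 2 ^ (A + X + 1) := one_le_pow₀ (by norm_num)
          have e6 : (2 : ℝ) ^ (A + X + 3) = 4 * 2 ^ (A + X + 1) := by
            rw [show A + X + 3 = (A + X + 1) + 2 from rfl, pow_add _ (A + X + 1) 2]; ring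
          rw [e6]
          linarith
        refine (Real.log_le_log (by positivity) e2).trans ?_
        rw [Real.log_pow]
        push_cast
        have : 0 ≤ ((s : ℝ) + 2) * Real.log 2 := by positivity
        linarith
      · rw [if_neg hb]
        unfold in1
        rw [if_neg hb, mul_zero, add_zero]
        have e2 : (2 : ℝ) * 2 ^ s + 1 ≤ 2 ^ (s + 2) := by
          have e5 : (1 : ℝ) ≤ 2 ^ s := one_le_pow₀ (by norm_num)
          have e6 : (2 : ℝ) ^ (s + 2) = 4 * 2 ^ s := by rw [pow_add]; ring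
          rw [e6]
          linarith
        refine (Real.log_le_log (by positivity) e2).trans ?_
        rw [Real.log_pow]
        push_cast
        exact le_rfl
  -- the end
  have hn0 : (0 : ℝ) ≤ n := Nat.cast_nonneg _
  have hA0 : (0 : ℝ) ≤ A := Nat.cast_nonneg _
  have hX0 : (0 : ℝ) ≤ X := Nat.cast_nonneg _
  have hr0 : (0 : ℝ) ≤ r := Nat.cast_nonneg _
  have hu0 : (0 : ℝ) < u := by linarith
  have hsu : u ≤ s := by
    have : 1 * (u + 1) ≤ C₁ * (u + 1) := Nat.mul_le_mul_right _ hC₁1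
    omega
  have huX : (u : ℝ) ≤ X := by exact_mod_cast hsu.trans hsX
  have hAX : (A : ℝ) ≤ X := by
    have : A ≤ s := by omega
    exact_mod_cast this.trans hsX
  have hX1 : (1 : ℝ) ≤ X := hu'.trans huX
  set S : ℝ := a + b + u + A + 1 with hS
  set T : ℝ := X * (e + A + 1) / u with hTdef
  have hS0 : 0 ≤ S := by positivity
  have hS1 : (A : ℝ) + 1 ≤ S := by
    have e5 : (0 : ℝ) ≤ a := Nat.cast_nonneg _
    have e6 : (0 : ℝ) ≤ b := Nat.cast_nonneg _
    rw [hS]
    linarith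
  have t1 : e ≤ T := ar5 he hA0 hu0 huX
  have t2 : β * Real.log 2 ≤ (2 * n + 1) * (e + A + 1) / u := ar6 he hA0 hn0 hu0 hl2' hβ1
  have t3 : β * ((A + X + 3) * Real.log 2) ≤ 5 * (2 * n + 1) * T := by
    have e1 : (A : ℝ) + X + 3 ≤ 5 * X := by linarith
    calc β * ((A + X + 3) * Real.log 2) = β * Real.log 2 * (A + X + 3) := by ring
      _ ≤ (2 * n + 1) * (e + A + 1) / u * (5 * X) :=
          mul_le_mul t2 e1 (by positivity) (by positivity)
      _ = 5 * (2 * n + 1) * T := by rw [hTdef]; ring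
  have t4 : ((n : ℝ) - r) * (A + X + 2) * Real.log 2 ≤
      (n - r) * (X * Real.log 2) + 2 * n * S * Real.log 2 := ar7 hr0 hrn' hA0 hS1 hl2.le
  have t5 : (n : ℝ) * ((A + s + 4) * Real.log 2) ≤ (4 * n + n * C₂) * S * Real.log 2 := by
    have h9 := ar8 (k := 3) (s := s) (C₂ := C₂) hn0 (by norm_num) hS1 hA0 hsC hl2.le
    norm_num at h9
    exact h9
  have t6 : (n : ℝ) * ((s + 2) * Real.log 2) ≤ (2 * n + n * C₂) * S * Real.log 2 := by
    have h9 := ar8 (k := 1) (s := s) (C₂ := C₂) (A := 0) hn0 (by norm_num) (by linarith) le_rfl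
      hsC hl2.le
    norm_num at h9
    exact h9
  have t7 : (n : ℝ) * (β * ((A + X + 3) * Real.log 2)) ≤ 5 * n * (2 * n + 1) * T := by
    calc (n : ℝ) * (β * ((A + X + 3) * Real.log 2)) ≤ n * (5 * (2 * n + 1) * T) :=
          mul_le_mul_of_nonneg_left t3 hn0
      _ = _ := by ring
  have hSl : 0 ≤ S * Real.log 2 := mul_nonneg hS0 hl2.le
  have hlS : Real.log 2 ≤ S * Real.log 2 := le_mul_of_one_le_left hl2.le (by linarith)
  have t8 : (1 + 2 * n + (4 * n + n * C₂) + (2 * n + n * C₂)) * (S * Real.log 2) ≤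
      C * (S * Real.log 2) := by
    refine mul_le_mul_of_nonneg_right ?_ hSl
    rw [hC]
    have e1 : 0 ≤ ((r : ℝ) + 1) * C₂ := by positivity
    have e2 : 0 ≤ 5 * (n : ℝ) * (2 * n + 1) := by positivity
    linarith
  have t9 : (1 + 5 * n * (2 * n + 1)) * T ≤ C * T := by
    refine mul_le_mul_of_nonneg_right ?_ hT
    rw [hC]
    have e1 : 0 ≤ ((r : ℝ) + 1) * C₂ := by positivity
    have e2 : 0 ≤ 2 * (n : ℝ) * C₂ := by positivity
    linarith
  linarith

end

end Pool.POLY
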